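import Mathlib
import Pool.Agent.V1199.AdpPi

open Set Filter Topology

namespace Pool.Agent.Results.MP_235f01_an.NoUnconditional

open Pool.Agent.V1199

/-- The super alternative Daugavet property: `X` is infinite-dimensional and for every `x` in the
unit sphere and every non-empty relatively weakly open subset `W` of the unit ball the supremum of
`max ‖x ± y‖` over `y ∈ W` is `2`. -/
def SuperADP (X : Type*) [NormedAddCommGroup X] [NormedSpace ℝ X] : Prop :=
  ¬ FiniteDimensional ℝ X ∧ ∀ x : X, ‖x‖ = 1 → ∀ U : Set (WeakSpace ℝ X), IsOpen U →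
    (∃ y : X, ‖y‖ ≤ 1 ∧ toWeakSpace ℝ X y ∈ U) →
    IsLUB {r : ℝ | ∃ y : X, ‖y‖ ≤ 1 ∧ toWeakSpace ℝ X y ∈ U ∧ (r = ‖x + y‖ ∨ r = ‖x - y‖)} 2

/-- `e` is a 1-unconditional Schauder basis of `X`. -/
def UnconditionalBasis {X : Type*} [NormedAddCommGroup X] [NormedSpace ℝ X] (e : ℕ → X) : Prop :=
  (∀ x : X, ∃! a : ℕ → ℝ, Tendsto (fun M => ∑ n ∈ Finset.range M, a n • e n) atTop (𝓝 x)) ∧
  ∀ (s : Finset ℕ) (a ε : ℕ → ℝ), (∀ n, ε n = 1 ∨ ε n = -1) →
    ‖∑ n ∈ s, (ε n * a n) • e n‖ = ‖∑ n ∈ s, a n • e n‖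

/-- No Banach space with a 1-unconditional basis has the super alternative Daugavet property. -/
theorem result (X : Type*) [NormedAddCommGroup X] [NormedSpace ℝ X] [CompleteSpace X]
    (e : ℕ → X) (he : UnconditionalBasis e) : ¬ SuperADP X := by
  rintro ⟨_, hX⟩
  obtain ⟨ψ, h⟩ := PiBase.uncBasis_of_schauder e he.1 (fun s a ε hε => (he.2 s a ε hε).le)
  have : Nontrivial X := h.nontrivial
  obtain ⟨U, hU, hbase⟩ := PiBase.exists_pibase h
  exact AdpPi.not_pibase hX U hU hbase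

end Pool.Agent.Results.MP_235f01_an.NoUnconditional
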